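import Pool.Agent.TH603.Sur.Forms
import Pool.Agent.TH545.Nag.Euc
import Pool.Agent.TH763.DB.Conv
import Pool.Agent.Y205.MD.Sub
import Pool.Agent.TH641.UM.Ones
import Pool.Agent.TH745.MN.Dbl

/-! # From the expected dimension at general points to independence in the torus -/

set_option autoImplicit false

namespace Pool.Agent.Q111.GR

open Finset Polynomial Pool.Agent.TH176.Nag Pool.Agent.TH603.Sur Pool.Agent.TH763.DB
open Pool.Agent.H932R2 (mspan Tset cIdeal)
open Pool.Agent.H932R3 (ExpDim vIdeal)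
open Pool.Agent.TH545.Nag (toKXX coeff_toKXX mem_of_LM)

section
variable {K : Type} [Field K]

/-- the linear map to the polynomials in two variables -/
noncomputable def lt (K : Type) [Field K] : ((ℤ × ℤ) →₀ K) →ₗ[K] K[X][X] :=
  Finsupp.linearCombination K fun m : ℤ × ℤ => Pool.Agent.H932R2.mon K (m.1.toNat, m.2.toNat)

theorem lt_eq (f : (ℤ × ℤ) →₀ K) : lt K f = toKXX f := by
  unfold lt toKXX
  rw [Finsupp.linearCombination_apply]
  rfl

theorem lt_mem {d : ℕ} {f : (ℤ × ℤ) →₀ K} (hf : (↑f.support : Set (ℤ × ℤ)) ⊆ TZ d) :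
    lt K f ∈ mspan K (Tset d) := by
  rw [lt_eq]
  unfold toKXX
  refine Submodule.sum_mem _ fun m hm => Submodule.smul_mem _ _ (Submodule.subset_span
    ⟨(m.1.toNat, m.2.toNat), ?_, rfl⟩)
  obtain ⟨h1, h2, h3⟩ := hf hm
  change m.1.toNat + m.2.toNat ≤ d
  omega

/-- the dimension of the system in the torus is at most the dimension of the space of forms -/
theorem finrank_sys_le [CharZero K] {n d : ℕ} {w : Fin n → ℕ} {P : Fin n → Fin 2 → K}
    (hP : ∀ i j, P i j ≠ 0) (h : ExpDim K w P d) {S : Finset (ℤ × ℤ)}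
    (hS : (↑S : Set (ℤ × ℤ)) ⊆ TZ d) :
    Module.finrank K ↥(Finsupp.supported K K (↑S : Set (ℤ × ℤ)) ⊓
      ⨅ i, Mul (P i 0) (P i 1) (w i)) ≤ (d + 2).choose 2 - ∑ i, (w i + 1).choose 2 := by
  classical
  unfold ExpDim at h
  rw [← h, Pool.Agent.H932R2.finrank_forms _ (Submodule.restrictScalars K
    (vIdeal 1 w (fun a => P a 0) (fun a => C (P a 1)))) fun F hF => by
      rw [Submodule.restrictScalars_mem, Submodule.restrictScalars_mem]
      unfold vIdeal
      rw [Ideal.mem_iInf, Ideal.mem_iInf]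
      exact forall_congr' fun i => Pool.Agent.H932R2.mem_ptIdeal_iff hF]
  set V : Submodule K ((ℤ × ℤ) →₀ K) := Finsupp.supported K K (↑S : Set (ℤ × ℤ)) ⊓
      ⨅ i, Mul (P i 0) (P i 1) (w i) with hV
  set U : Submodule K K[X][X] := mspan K (Tset d) ⊓ Submodule.restrictScalars K
    (vIdeal 1 w (fun a => P a 0) (fun a => C (P a 1))) with hU
  have hVs : ∀ f ∈ V, (↑f.support : Set (ℤ × ℤ)) ⊆ TZ d := fun f hf =>
    ((Finsupp.mem_supported K f).1 hf.1).trans hS
  have hmap : ∀ f ∈ V, lt K f ∈ U := by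
    intro f hf
    refine ⟨lt_mem (hVs f hf), ?_⟩
    rw [SetLike.mem_coe, Submodule.restrictScalars_mem]
    unfold vIdeal
    rw [Ideal.mem_iInf]
    intro i
    rw [lt_eq]
    have h2 := hf.2
    rw [SetLike.mem_coe, Submodule.mem_iInf] at h2
    exact mem_of_LM (fun m hm => ⟨(hVs f hf hm).1, (hVs f hf hm).2.1⟩) (hP i 0) (hP i 1) (h2 i)
  have hfd : FiniteDimensional K ↥(mspan K (Tset d)) := by
    unfold mspan
    refine FiniteDimensional.span_of_finite K (Set.Finite.image _ ?_)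
    refine Set.Finite.subset (Set.finite_Iic ((d, d) : ℕ × ℕ)) ?_
    rintro ⟨a, b⟩ hab
    have h1 : a + b ≤ d := hab
    rw [Set.mem_Iic, Prod.mk_le_mk]
    omega
  have hfdU : FiniteDimensional K ↥U := Submodule.finiteDimensional_of_le inf_le_left
  refine LinearMap.finrank_le_finrank_of_injective (f := (lt K).restrict hmap) ?_
  intro f g hfg
  have h1 : lt K (f.1 - g.1) = 0 := by
    rw [map_sub, sub_eq_zero]
    exact congrArg Subtype.val hfg
  have h2 : f.1 - g.1 ∈ V := V.sub_mem f.2 g.2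
  rw [← sub_eq_zero]
  apply Subtype.ext
  change f.1 - g.1 = 0
  rw [lt_eq] at h1
  by_contra hne
  obtain ⟨m, hm⟩ := Finsupp.support_nonempty_iff.2 hne
  have h3 := coeff_toKXX (fun m hm => ⟨(hVs _ h2 hm).1, (hVs _ h2 hm).2.1⟩) hm
  rw [h1] at h3
  rw [coeff_zero, coeff_zero] at h3
  exact (Finsupp.mem_support_iff.1 hm) h3.symm

end

/-- The generic points. -/
theorem exists_gen (n : ℕ) : ∃ (K : Type) (_ : Field K) (_ : CharZero K)
    (P : Fin n → Fin 2 → K), AlgebraicIndependent ℚ (fun ij : Fin n × Fin 2 => P ij.1 ij.2) := by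
  refine ⟨FractionRing (MvPolynomial (Fin n × Fin 2) ℚ), inferInstance, ?_,
    fun i j => algebraMap (MvPolynomial (Fin n × Fin 2) ℚ) _ (MvPolynomial.X (i, j)), ?_⟩
  · exact charZero_of_injective_algebraMap
      (IsFractionRing.injective (MvPolynomial (Fin n × Fin 2) ℚ)
        (FractionRing (MvPolynomial (Fin n × Fin 2) ℚ)))
  · have h := (MvPolynomial.algebraicIndependent_X (Fin n × Fin 2) ℚ).map'
      (f := IsScalarTower.toAlgHom ℚ (MvPolynomial (Fin n × Fin 2) ℚ)
        (FractionRing (MvPolynomial (Fin n × Fin 2) ℚ)))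
      (IsFractionRing.injective (MvPolynomial (Fin n × Fin 2) ℚ)
        (FractionRing (MvPolynomial (Fin n × Fin 2) ℚ)))
    exact h

/-- **Independence from the expected dimension.** -/
theorem sur_of_exp {r e : ℕ} {v : Fin r → ℕ} (hs : ∑ i, (v i + 1).choose 2 ≤ (e + 2).choose 2)
    (h : ∀ {K : Type} [Field K] [CharZero K] {P : Fin r → Fin 2 → K},
      AlgebraicIndependent ℚ (fun ij : Fin r × Fin 2 => P ij.1 ij.2) → ExpDim K v P e) :
    Sur v (TZ e) := by
  classical
  obtain ⟨K, _, _, P, hP⟩ := exists_gen r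
  have hP0 : ∀ i j, P i j ≠ 0 := by
    intro i j h0
    have h1 := hP.transcendental (i, j)
    apply h1
    change IsAlgebraic ℚ (P i j)
    rw [h0]
    exact isAlgebraic_zero
  have hc : (TZ_finite e).toFinset.card = (e + 2).choose 2 := by
    exact Pool.Agent.TH641.UM.card_TF e
  have h1 := finrank_sys_le hP0 (h hP) (S := (TZ_finite e).toFinset) (by
    rw [Set.Finite.coe_toFinset])
  obtain ⟨T, hT, hTc, hTi⟩ := exists_sub (TZ_finite e).toFinset
    (⨅ i, Mul (P i 0) (P i 1) (v i)) h1 (by rw [hc]; exact Nat.sub_le _ _)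
  refine ⟨T, ?_, ?_, K, inferInstance, inferInstance, fun i => P i 0, fun i => P i 1,
    fun i => hP0 i 0, fun i => hP0 i 1, fun f hf hL => ?_⟩
  · intro m hm
    exact (Set.Finite.mem_toFinset _).1 (hT hm)
  · unfold Pool.Agent.TH603.Sur.cond
    rw [hc] at hTc
    omega
  · have h3 : f ∈ Finsupp.supported K K (↑T : Set (ℤ × ℤ)) ⊓
        ⨅ i, Mul (P i 0) (P i 1) (v i) := by
      refine ⟨(Finsupp.mem_supported _ f).2 hf, ?_⟩
      rw [SetLike.mem_coe, Submodule.mem_iInf]
      exact hL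
    rw [hTi] at h3
    exact (Submodule.mem_bot _).1 h3

/-- **Heredity.** -/
theorem hered_sur {n r e : ℕ} {w : Fin n → ℕ} {v : Fin r → ℕ} (f : Fin n ↪ Fin r)
    (hw : ∀ i, w i ≤ v (f i)) (h : Sur v (TZ e)) : Sur w (TZ e) := by
  classical
  have hcoe : (↑(TZ_finite e).toFinset : Set (ℤ × ℤ)) = TZ e := Set.Finite.coe_toFinset _
  rw [← hcoe] at h
  set w' : Fin r → ℕ := Function.extend f w (fun _ => 0) with hw'
  have h1 := Pool.Agent.Y205.MD.Sur_le (fun u hu => by
    have h2 : u ∈ TZ e := (Set.Finite.mem_toFinset _).1 hu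
    exact ⟨h2.1, h2.2.1⟩) (w := w') (v := v) (fun i => by
      by_cases hi : ∃ k, f k = i
      · obtain ⟨k, rfl⟩ := hi
        rw [hw', f.injective.extend_apply]
        exact hw k
      · rw [hw', Function.extend_apply' _ _ _ hi]
        exact Nat.zero_le _) h
  rw [hcoe] at h1
  refine Pool.Agent.TH745.MN.Sur_drop f f.injective (fun k => ?_) (fun i hi => ?_) h1
  · rw [hw', f.injective.extend_apply]
  · by_contra hcon
    apply hi
    rw [hw', Function.extend_apply' _ _ _ hcon]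

end Pool.Agent.Q111.GR
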