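import Pool.Agent.H200G.Stm5
import Pool.Agent.Q111.GR.Lem

/-! # Heredity of independence -/

set_option autoImplicit false

namespace Pool.Agent.Q111.GR

open Pool.Agent.H200G Pool.Agent.H200P

theorem hered : S_Hered := by
  intro n r d e w v f hed hw hs hv
  have h1 := hered_sur f hw (sur_of_exp hs fun {K} _ _ {P} hP => hv hP)
  obtain ⟨F, hF, hF'⟩ := Pool.Agent.TH603.Sur.indep_open h1
  intro K _ _ P hP
  exact hF' P (fun h0 => hF (hP.eq_zero_of_aeval_eq_zero F h0)) d hed

end Pool.Agent.Q111.GR
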