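import Pool.Agent.Q269.GR.StB

/-!
# Duality for bilinear forms
-/

set_option autoImplicit false

open scoped Classical
open Finset

namespace Pool.Agent.Q111.GR

open Pool.Agent.Q269.GR

theorem t_DUA : S_DUA := by
  intro α β _ _ A C hC hA h
  obtain ⟨S, hS⟩ : ∃ S : β → ℝ, ∀ b, S b = ∑ a, A a b * h a := ⟨_, fun _ => rfl⟩
  simp only [← hS]
  obtain ⟨X, hX⟩ : ∃ X : ℝ, X = ∑ b, S b ^ 2 := ⟨_, rfl⟩
  have hX0 : 0 ≤ X := by
    rw [hX]
    positivity
  have h1 : X = ∑ a, h a * ∑ b, A a b * S b := by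
    have : X = ∑ b, ∑ a, h a * (A a b * S b) := by
      rw [hX]
      refine Finset.sum_congr rfl fun b _ => ?_
      rw [sq]
      nth_rewrite 1 [hS b]
      rw [Finset.sum_mul]
      refine Finset.sum_congr rfl fun a _ => ?_
      ring
    rw [this, Finset.sum_comm]
    refine Finset.sum_congr rfl fun a _ => ?_
    rw [Finset.mul_sum]
  have h2 : X ^ 2 ≤ (∑ a, h a ^ 2) * (C * X) := by
    have h3 := Finset.sum_mul_sq_le_sq_mul_sq Finset.univ h (fun a => ∑ b, A a b * S b)
    rw [← h1] at h3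
    refine h3.trans (mul_le_mul_of_nonneg_left ?_ (by positivity))
    have h4 := hA S
    rw [← hX] at h4
    exact h4
  rw [← hX]
  rcases hX0.lt_or_eq with h5 | h5
  · have h6 : X * X ≤ (C * ∑ a, h a ^ 2) * X := by nlinarith
    exact le_of_mul_le_mul_right h6 h5
  · rw [← h5]
    positivity

end Pool.Agent.Q111.GR
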